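import Pool.Agent.H21.SdWLP

namespace Pool.Agent.Results.MP_28b0d6_al.NoWLP

open Pool.Agent.H21.Sd

theorem result (K : Type) [Field K] [CharZero K] :
    ∃ (G : Finset (Finset (Fin 6))) (c : Fin 25 → Finset (Fin 6)),
      (∀ s ∈ G, ∀ t : Finset (Fin 6), t ⊆ s → t ∈ G) ∧ (∀ s ∈ G, s.card ≤ 3) ∧
      (∃ s ∈ G, s.card = 3) ∧ Function.Injective c ∧
      (∀ s, s ∈ Set.range c ↔ s ∈ G ∧ s.Nonempty) ∧
      (∃ θ : Fin 3 → MvPolynomial (Fin 25) K,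
        IsLsop (sdIdeal K c) θ ∧ IsRegSeq (sdIdeal K c) θ) ∧
      ∀ θ : Fin 3 → MvPolynomial (Fin 25) K, IsLsop (sdIdeal K c) θ →
        ¬ WLP (sdIdeal K c ⊔ Ideal.span (Set.range θ)) := by
  refine ⟨GG, cc, GG_down, ?_, ⟨cc 14, by simp [GG], rfl⟩, cc_inj, fun s => ?_,
    ⟨th K, lsop, regseq⟩, no_wlp⟩
  · intro s hs
    rcases Finset.mem_insert.1 hs with rfl | hs
    · simp
    · obtain ⟨a, -, rfl⟩ := Finset.mem_image.1 hs
      exact (cc_card a).2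
  · constructor
    · rintro ⟨a, rfl⟩
      exact ⟨by simp [GG], (cc_card a).1⟩
    · rintro ⟨hs, hn⟩
      rcases Finset.mem_insert.1 hs with rfl | hs
      · simp at hn
      · obtain ⟨a, -, rfl⟩ := Finset.mem_image.1 hs
        exact ⟨a, rfl⟩

end Pool.Agent.Results.MP_28b0d6_al.NoWLP
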